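import Pool.Agent.W570.Sym.Final

/-!
# Monotone intrinsic-volume preserving symmetrizations fixing symmetric sets do not exist

The complete answer: for every subspace `H ≠ ℝⁿ` and `2 ≤ j ≤ n - 1`. The case `dim H ≤ n - 2` is
`Pool.Agent.Results.MP_b62b68_gt.NoSymmetrization.result`; the case of a hyperplane is new.
-/

namespace Pool.Agent.Results.MP_b62b68_gt.AllDimensions

open MeasureTheory Module Set
open Pool.Agent.Results.MP_b62b68_gt.NoSymmetrization (E HSymm V compactConvex
  nonemptyCompactConvex convexBodies GoodSymmetrization)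

open Pool.Agent.W570.Sym in
/-- The case of a hyperplane. -/
theorem hyperplane (n j : ℕ) (hj : 2 ≤ j) (hjn : j + 1 ≤ n) (H : Submodule ℝ (E n))
    (hH : finrank ℝ H + 1 = n) (𝓑 : Set (Set (E n)))
    (h𝓑 : 𝓑 = compactConvex n ∨ 𝓑 = nonemptyCompactConvex n ∨ 𝓑 = convexBodies n) :
    ¬ ∃ D : Set (E n) → Set (E n), GoodSymmetrization 𝓑 H j D := by
  rintro ⟨D, hD⟩
  obtain ⟨k, rfl⟩ : ∃ k, j = k + 1 + 1 := ⟨j - 2, by omega⟩
  have hbody : ∀ K ∈ convexBodies n, K ∈ 𝓑 := by
    intro K hK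
    rcases h𝓑 with rfl | rfl | rfl
    · exact ⟨hK.1, hK.2.1⟩
    · exact ⟨hK.1, hK.2.1, hK.2.2.mono interior_subset⟩
    · exact hK
  have hcc : ∀ K ∈ 𝓑, IsCompact K ∧ Convex ℝ K := by
    intro K hK
    rcases h𝓑 with rfl | rfl | rfl
    · exact hK
    · exact ⟨hK.1, hK.2.1⟩
    · exact ⟨hK.1, hK.2.1⟩
  have hmono : ∀ K ∈ convexBodies n, ∀ L ∈ convexBodies n, K ⊆ L → D K ⊆ D L :=
    fun K hK L hL => hD.monotonic K (hbody K hK) L (hbody L hL)
  have hsym : ∀ (c : E n) (r t : ℝ), HSymm H (cyl H c r t) := by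
    intro c r t
    rw [NoSymmetrization.hsymm_iff]
    rintro x ⟨h1, h2⟩
    have h3 : H.starProjection (H.reflection x) = H.starProjection x := by
      rw [← NoSymmetrization.refl_eq, map_sub, map_smul,
        Submodule.starProjection_eq_self_iff.2 (Submodule.starProjection_apply_mem H x), two_smul]
      abel
    refine ⟨?_, ?_⟩
    · rw [h3]
      exact h1
    · rw [h3, ← NoSymmetrization.refl_eq, two_smul]
      have : H.starProjection x + H.starProjection x - x - H.starProjection x =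
          -(x - H.starProjection x) := by abel
      rw [this, norm_neg]
      exact h2
  have hproj : ∀ K ∈ convexBodies n, ∀ x ∈ D K, ∃ y ∈ K,
      H.starProjection y = H.starProjection x := by
    intro K hK x hx
    refine proj_of_cyl H D hmono ?_ K hK x hx
    intro c hcH r t hr ht
    exact hD.invariant _ (hbody _ (cyl_body H hcH hr ht)) (hsym c r t)
  obtain ⟨D', hD'⟩ := exists_ext2 (j := k + 1 + 1) (by omega) H D
    (fun K hK => ⟨(hcc _ (hD.maps _ (hbody K hK)).1).1, (hcc _ (hD.maps _ (hbody K hK)).1).2,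
      (hD.maps _ (hbody K hK)).2⟩) hmono
    (fun K hK => hD.preserves K (hbody K hK)) hproj
  exact no_ext2 (by omega) H hH (by omega) hD'

/-- **No symmetrization, whatever the dimension of `H`.** -/
theorem result (n i j : ℕ) (hi : i < n) (hj : 2 ≤ j) (hjn : j < n) (H : Submodule ℝ (E n))
    (hH : finrank ℝ H = i) (𝓑 : Set (Set (E n)))
    (h𝓑 : 𝓑 = compactConvex n ∨ 𝓑 = nonemptyCompactConvex n ∨ 𝓑 = convexBodies n) :
    ¬ ∃ D : Set (E n) → Set (E n), GoodSymmetrization 𝓑 H j D := by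
  rcases Nat.lt_or_ge (i + 1) n with h | h
  · exact NoSymmetrization.result n i j h hj hjn.le H hH 𝓑 h𝓑
  · exact hyperplane n j hj hjn H (by omega) 𝓑 h𝓑

end Pool.Agent.Results.MP_b62b68_gt.AllDimensions
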